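import Pool.Agent.Helper57.KE.St

/-!
# Project KE (MP_45ac3c_an), module BIG
-/

set_option autoImplicit false

open scoped BigOperators
open Finset

namespace Pool.Agent.Helper65.KE

open Pool.Agent.Helper65.RG Pool.Agent.Helper57.KR Pool.Agent.Helper57.KE

/-- sum of kernels -/
lemma kb_sum {ι : Type*} [Fintype ι] {κ : ℝ} (K : ℕ → ι → ι → ℝ) (P : Finset ℕ)
    (h : ∀ m ∈ P, KB (K m) κ) : KB (fun i j => ∑ m ∈ P, K m i j) (P.card * κ) := by
  intro x y hx hy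
  have e : ∑ i, ∑ j, (∑ m ∈ P, K m i j) * x j * y i = ∑ m ∈ P, ∑ i, ∑ j, K m i j * x j * y i := by
    simp only [sum_mul]
    rw [sum_comm]
    rw [sum_comm]
    have h1 : ∀ i : ι, ∑ j, ∑ m ∈ P, K m i j * x j * y i = ∑ m ∈ P, ∑ j, K m i j * x j * y i :=
      fun i => sum_comm
    simp only [h1]
    rw [sum_comm]
  rw [e]
  calc ∑ m ∈ P, ∑ i, ∑ j, K m i j * x j * y i
      ≤ ∑ m ∈ P, κ * (√(∑ i, x i ^ 2) * √(∑ i, y i ^ 2)) :=
        sum_le_sum fun m hm => h m hm x y hx hy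
    _ = _ := by rw [sum_const, nsmul_eq_mul]; ring

lemma lin_geom {δ : ℝ} (hδ : 0 < δ) (K : ℕ) :
    ∑ k ∈ range K, (k : ℝ) * ((1 + δ)⁻¹) ^ (k + 1) ≤ (δ ^ 2)⁻¹ := by
  set q : ℝ := (1 + δ)⁻¹ with hq
  have hq0 : 0 < q := by positivity
  have hq1 : q ≤ 1 := inv_le_one_of_one_le₀ (by linarith)
  have e : 1 - q = δ * q := by
    rw [hq]
    field_simp
    ring
  have hT : ∀ K : ℕ, q * ∑ k ∈ range K, q ^ (k + 1) * ((k : ℝ) + 1) ≤ (δ ^ 2)⁻¹ := by
    intro K
    have h3 := arith_geom hq0.le hq1 K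
    rw [e] at h3
    set X := ∑ k ∈ range K, q ^ (k + 1) * ((k : ℝ) + 1) with hX
    have h4 : q * (δ ^ 2 * (q * X)) ≤ q * 1 := by
      calc q * (δ ^ 2 * (q * X)) = (δ * q) ^ 2 * X := by ring
        _ ≤ q := h3
        _ = q * 1 := by ring
    have h5 := le_of_mul_le_mul_left h4 hq0
    rw [inv_eq_one_div, le_div_iff₀ (by positivity)]
    linarith
  cases K with
  | zero => simp; positivity
  | succ K =>
    rw [sum_range_succ']
    have h1 : ∑ k ∈ range K, (((k + 1 : ℕ) : ℝ)) * q ^ (k + 1 + 1) + ((0 : ℕ) : ℝ) * q ^ (0 + 1)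
        = q * ∑ k ∈ range K, q ^ (k + 1) * ((k : ℝ) + 1) := by
      rw [mul_sum]
      simp only [Nat.cast_zero, zero_mul, add_zero]
      refine sum_congr rfl fun k _ => ?_
      push_cast
      ring
    rw [h1]
    exact hT K

/-- the kernel `(i - j) k1` -/
lemma kb_lin {δ : ℝ} (hδ : 0 < δ) (N : ℕ) :
    KB (fun i j : Fin (N + 1) => (((i : ℕ) - (j : ℕ) : ℕ) : ℝ) * k1 δ i j) (δ ^ 2)⁻¹ := by
  have hd : 0 ≤ (δ ^ 2)⁻¹ := by positivity
  have hkey : ∀ i j : ℕ, ((i - j : ℕ) : ℝ) * k1 δ i j =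
      if j ≤ i then (fun k : ℕ => (k : ℝ) * ((1 + δ)⁻¹) ^ (k + 1)) (i - j) else 0 := by
    intro i j
    unfold k1
    split_ifs
    · rfl
    · ring
  have := KB.schur (ι := Fin (N + 1))
    (K := fun i j => (((i : ℕ) - (j : ℕ) : ℕ) : ℝ) * k1 δ i j) (h := fun _ => 1)
    (A := (δ ^ 2)⁻¹) (B := (δ ^ 2)⁻¹) (fun _ => one_pos)
    (fun i j => by have := k1_nonneg hδ (i : ℕ) j; positivity) hd hd ?_ ?_
  · rwa [Real.mul_self_sqrt hd] at this
  · intro i
    simp only [mul_one, hkey]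
    rw [Fin.sum_univ_eq_sum_range (fun j => if j ≤ (i : ℕ) then
      ((((i : ℕ) - j : ℕ) : ℝ)) * ((1 + δ)⁻¹) ^ ((i : ℕ) - j + 1) else 0) (N + 1)]
    exact sum_row (g := fun k => (k : ℝ) * ((1 + δ)⁻¹) ^ (k + 1)) (lin_geom hδ)
      (by have := i.isLt; omega)
  · intro j
    simp only [mul_one, hkey]
    rw [Fin.sum_univ_eq_sum_range (fun i => if (j : ℕ) ≤ i then
      (((i - (j : ℕ) : ℕ) : ℝ)) * ((1 + δ)⁻¹) ^ (i - (j : ℕ) + 1) else 0) (N + 1)]
    exact sum_col (g := fun k => (k : ℝ) * ((1 + δ)⁻¹) ^ (k + 1)) (lin_geom hδ)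
      (by have := j.isLt; omega)

lemma pow_quad {δ : ℝ} (hδ : 0 < δ) (n : ℕ) :
    1 + n * δ + n * ((n : ℝ) - 1) / 2 * δ ^ 2 ≤ (1 + δ) ^ n := by
  induction n with
  | zero => simp
  | succ n ih =>
    rw [pow_succ]
    have h1 := mul_le_mul_of_nonneg_right ih (by linarith : 0 ≤ 1 + δ)
    refine le_trans ?_ h1
    push_cast
    have h2 : (0 : ℝ) ≤ n * ((n : ℝ) - 1) := by
      rcases Nat.eq_zero_or_pos n with h | h
      · subst h; simp
      · have : (1 : ℝ) ≤ n := by exact_mod_cast h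
        exact mul_nonneg (by linarith) (by linarith)
    have h3 : 0 ≤ n * ((n : ℝ) - 1) / 2 * δ ^ 3 := by positivity
    nlinarith

lemma k1_quad {δ : ℝ} (hδ : 0 < δ) (hδ1 : δ ≤ 1) {i j N : ℕ} (h : N + 1 ≤ 8 * (i - j + 1)) :
    k1 δ i j ≤ 128 / (((N : ℝ) + 1) ^ 2 * δ ^ 2) := by
  unfold k1
  split_ifs with hij
  swap
  · positivity
  set m : ℕ := i - j + 1 with hm
  have h1 := pow_quad hδ m
  have h2 : (m : ℝ) ^ 2 * δ ^ 2 / 2 ≤ (1 + δ) ^ m := by
    refine le_trans ?_ h1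
    have h3 : (m : ℝ) * δ ^ 2 ≤ m * δ := by
      have : δ ^ 2 ≤ δ := by nlinarith
      exact mul_le_mul_of_nonneg_left this (Nat.cast_nonneg m)
    nlinarith
  have h4 : ((N : ℝ) + 1) ≤ 8 * m := by exact_mod_cast h
  have h5 : ((N : ℝ) + 1) ^ 2 * δ ^ 2 / 128 ≤ (1 + δ) ^ m := by
    refine le_trans ?_ h2
    have h6 : ((N : ℝ) + 1) ^ 2 ≤ (8 * (m : ℝ)) ^ 2 := by
      apply pow_le_pow_left₀ (by positivity) h4
    have h7 : 0 ≤ δ ^ 2 := by positivity
    nlinarith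
  rw [inv_pow, inv_eq_one_div, div_le_div_iff₀ (by positivity) (by positivity)]
  linarith

theorem hBIG : StBIG := by
  intro φ Φ B C δ M N hφ hle hconst hM hN hδ hδ1 hC hB0 hA hB
  have hΦ : 0 < Φ := lt_of_lt_of_le (hφ 0) (hle 0)
  have hN1 : (0 : ℝ) < (N : ℝ) + 1 := by positivity
  -- the reversed kernel
  have hR : KB (fun i j : Fin (N + 1) => k1 δ i j * (φ (N - j) / φ (N - i))) (C * δ⁻¹) := by
    have h2 := (hA.transpose).reindex (Fin.revPerm)
    simp only [Fin.revPerm_apply] at h2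
    refine h2.mono ?_ le_rfl
    intro i j
    have hi := i.isLt
    have hj := j.isLt
    simp only [Fin.val_rev]
    have e1 : N + 1 - ((i : ℕ) + 1) = N - i := by omega
    have e2 : N + 1 - ((j : ℕ) + 1) = N - j := by omega
    rw [e1, e2]
    unfold k1
    by_cases h : (j : ℕ) ≤ i
    · rw [if_pos h, if_pos (by omega)]
      have e3 : N - (j : ℕ) - (N - i) = i - j := by omega
      rw [e3]
    · rw [if_neg h, if_neg (by omega), zero_mul]
  -- the cuts
  set P : Finset ℕ := Finset.Icc (N / 4 + 1) (3 * N / 4) with hP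
  have hPc : N + 1 ≤ 4 * P.card := by
    rw [hP, Nat.card_Icc]
    omega
  have hP0 : 0 < P.card := by omega
  have hPr : (0 : ℝ) < P.card := by exact_mod_cast hP0
  have hPr4 : (N : ℝ) + 1 ≤ 4 * P.card := by exact_mod_cast hPc
  have hmem : ∀ m ∈ P, N < 4 * m ∧ 4 * m ≤ 3 * N := by
    intro m hm
    rw [hP, Finset.mem_Icc] at hm
    omega
  let Km : ℕ → Fin (N + 1) → Fin (N + 1) → ℝ := fun m i j =>
    if (i : ℕ) < m ∧ (j : ℕ) < m then k1 δ i j * (φ i / φ j)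
    else if ¬ (i : ℕ) < m ∧ ¬ (j : ℕ) < m then k1 δ i j * (φ (N - j) / φ (N - i)) else 0
  have hKm : ∀ m ∈ P, KB (Km m) (C * δ⁻¹) := fun m _ =>
    kb_block hA hR (by positivity) (fun i : Fin (N + 1) => (i : ℕ) < m)
  have hS := (kb_sum Km P hKm).smul (c := (P.card : ℝ)⁻¹) (by positivity)
  have hE1 := (kb_lin hδ N).smul (c := 4 / ((N : ℝ) + 1)) (by positivity)
  have hCC : KB (fun i j : Fin (N + 1) => 128 / (((N : ℝ) + 1) ^ 2 * δ ^ 2) *
      ((Φ / φ (N - i)) * (Φ / φ j))) (128 * B / (((N : ℝ) + 1) * δ ^ 2)) := by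
    have h1 := (KB.rankOne (K := fun i j : Fin (N + 1) => (Φ / φ (N - i)) * (Φ / φ j))
      (u := fun i : Fin (N + 1) => Φ / φ (N - i)) (v := fun j : Fin (N + 1) => Φ / φ j)
      (fun i j => le_rfl)).smul (c := 128 / (((N : ℝ) + 1) ^ 2 * δ ^ 2)) (by positivity)
    refine h1.mono (fun i j => le_rfl) ?_
    have e1 : ∑ i : Fin (N + 1), (Φ / φ (N - i)) ^ 2
        = Φ ^ 2 * ∑ j ∈ range (N + 1), (φ j ^ 2)⁻¹ := by
      rw [← Equiv.sum_comp Fin.revPerm,
        ← Fin.sum_univ_eq_sum_range (fun j => (φ j ^ 2)⁻¹) (N + 1), mul_sum]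
      refine sum_congr rfl fun i _ => ?_
      rw [Fin.revPerm_apply, Fin.val_rev]
      have : N - (N + 1 - ((i : ℕ) + 1)) = i := by have := i.isLt; omega
      rw [this, div_pow, div_eq_mul_inv]
    have e2 : ∑ i : Fin (N + 1), (Φ / φ i) ^ 2 = Φ ^ 2 * ∑ j ∈ range (N + 1), (φ j ^ 2)⁻¹ := by
      rw [← Fin.sum_univ_eq_sum_range (fun j => (φ j ^ 2)⁻¹) (N + 1), mul_sum]
      refine sum_congr rfl fun i _ => ?_
      rw [div_pow, div_eq_mul_inv]
    rw [e1, e2, Real.mul_self_sqrt (mul_nonneg (sq_nonneg _) (sum_nonneg fun i _ => by positivity))]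
    calc 128 / (((N : ℝ) + 1) ^ 2 * δ ^ 2) * (Φ ^ 2 * ∑ j ∈ range (N + 1), (φ j ^ 2)⁻¹)
        ≤ 128 / (((N : ℝ) + 1) ^ 2 * δ ^ 2) * (B * ((N : ℝ) + 1)) := by gcongr
      _ = 128 * B / (((N : ℝ) + 1) * δ ^ 2) := by field_simp
  have hT := (hS.add hE1).add hCC
  refine hT.mono ?_ (le_of_eq (by field_simp; ring))
  intro i j
  have p1 := hφ i
  have p2 := hφ j
  have p3 := hφ (N - i)
  have p4 := hφ (N - j)
  have hk := k1_nonneg hδ (i : ℕ) j
  have hi := i.isLt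
  have hj := j.isLt
  have e0 : (φ i / φ (N - i)) / (φ j / φ (N - j)) = (φ i / φ j) * (φ (N - j) / φ (N - i)) := by
    field_simp
  rw [e0]
  have t2 : 0 ≤ 4 / ((N : ℝ) + 1) * ((((i : ℕ) - (j : ℕ) : ℕ) : ℝ) * k1 δ i j) := by positivity
  have t3 : 0 ≤ 128 / (((N : ℝ) + 1) ^ 2 * δ ^ 2) * ((Φ / φ (N - i)) * (Φ / φ j)) := by positivity
  have t1 : ∀ m, 0 ≤ Km m i j := by
    intro m
    show 0 ≤ ite _ _ _
    split_ifs <;> positivity
  by_cases hij : (j : ℕ) ≤ i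
  swap
  · have hk0 : k1 δ i j = 0 := by
      unfold k1
      rw [if_neg hij]
    rw [hk0, zero_mul]
    have : 0 ≤ (P.card : ℝ)⁻¹ * ∑ m ∈ P, Km m i j :=
      mul_nonneg (by positivity) (sum_nonneg fun m _ => t1 m)
    rw [hk0] at t2
    linarith
  -- the two-sided kernel
  set K : ℝ := k1 δ i j * ((φ i / φ j) * (φ (N - j) / φ (N - i))) with hK
  have hK0 : 0 ≤ K := by positivity
  -- non separating cuts
  have hns : ∀ m ∈ P, ¬ ((j : ℕ) < m ∧ m ≤ i) → Km m i j = K := by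
    intro m hm hns
    have h1 := hmem m hm
    show ite _ _ _ = K
    by_cases h2 : (i : ℕ) < m
    · rw [if_pos ⟨h2, by omega⟩, hK, hconst (N - i) (by omega), hconst (N - j) (by omega),
        div_self hΦ.ne', mul_one]
    · rw [if_neg (by tauto), if_pos ⟨h2, by omega⟩, hK, hconst i (by omega), hconst j (by omega),
        div_self hΦ.ne', one_mul]
  -- the separating cuts
  set Q : Finset ℕ := P.filter fun m => (j : ℕ) < m ∧ m ≤ i with hQ
  have hQP : Q.card ≤ P.card := Finset.card_filter_le _ _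
  have hQc : Q.card ≤ (i : ℕ) - j := by
    have h1 : Q ⊆ Finset.Ioc (j : ℕ) i := by
      intro m hm
      rw [hQ, Finset.mem_filter] at hm
      exact Finset.mem_Ioc.2 hm.2
    have := Finset.card_le_card h1
    rwa [Nat.card_Ioc] at this
  have hsum : (P.card : ℝ) * K - Q.card * K ≤ ∑ m ∈ P, Km m i j := by
    have h1 : ∑ m ∈ P, (if (j : ℕ) < m ∧ m ≤ i then 0 else K) ≤ ∑ m ∈ P, Km m i j := by
      refine sum_le_sum fun m hm => ?_
      split_ifs with h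
      · exact t1 m
      · exact (hns m hm h).ge
    have h2 : ∑ m ∈ P, (if (j : ℕ) < m ∧ m ≤ i then 0 else K)
        = ∑ m ∈ P, K - ∑ m ∈ P, (if (j : ℕ) < m ∧ m ≤ i then K else 0) := by
      rw [← sum_sub_distrib]
      refine sum_congr rfl fun m _ => ?_
      split_ifs <;> simp
    rw [h2, sum_const, ← sum_filter, sum_const, nsmul_eq_mul, nsmul_eq_mul] at h1
    exact h1
  have hmain : K - (Q.card : ℝ) / P.card * K ≤ (P.card : ℝ)⁻¹ * ∑ m ∈ P, Km m i j := by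
    have h1 := mul_le_mul_of_nonneg_left hsum (inv_nonneg.2 hPr.le)
    refine le_trans (le_of_eq ?_) h1
    field_simp
  -- the error
  have herr : (Q.card : ℝ) / P.card * K ≤
      4 / ((N : ℝ) + 1) * ((((i : ℕ) - (j : ℕ) : ℕ) : ℝ) * k1 δ i j) +
      128 / (((N : ℝ) + 1) ^ 2 * δ ^ 2) * ((Φ / φ (N - i)) * (Φ / φ j)) := by
    have hq1 : (Q.card : ℝ) / P.card ≤ 1 := by
      rw [div_le_one hPr]
      exact_mod_cast hQP
    have hq0 : 0 ≤ (Q.card : ℝ) / P.card := by positivity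
    by_cases hc : M ≤ (j : ℕ) ∧ M ≤ N - i
    · have hKe : K = k1 δ i j := by
        rw [hK, hconst i (by omega), hconst j hc.1, hconst (N - i) hc.2, hconst (N - j) (by omega),
          div_self hΦ.ne']
        ring
      have h2 : (Q.card : ℝ) / P.card ≤ 4 / ((N : ℝ) + 1) * (((i : ℕ) - (j : ℕ) : ℕ) : ℝ) := by
        rw [div_mul_eq_mul_div, div_le_div_iff₀ hPr hN1]
        have h3 : (Q.card : ℝ) ≤ (((i : ℕ) - (j : ℕ) : ℕ) : ℝ) := by exact_mod_cast hQc
        have h4 : (0 : ℝ) ≤ (((i : ℕ) - (j : ℕ) : ℕ) : ℝ) := Nat.cast_nonneg _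
        calc (Q.card : ℝ) * ((N : ℝ) + 1) ≤ (((i : ℕ) - (j : ℕ) : ℕ) : ℝ) * (4 * P.card) :=
              mul_le_mul h3 hPr4 hN1.le h4
          _ = _ := by ring
      rw [hKe]
      have h3 := mul_le_mul_of_nonneg_right h2 hk
      linarith
    · by_cases hQe : Q.card = 0
      · rw [hQe]
        simp only [Nat.cast_zero, zero_div, zero_mul]
        linarith
      · obtain ⟨m, hm⟩ : Q.Nonempty := Finset.card_pos.1 (by omega)
        rw [hQ, Finset.mem_filter] at hm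
        have h1 := hmem m hm.1
        have h2 := hm.2
        have h3 := k1_quad hδ hδ1 (i := (i : ℕ)) (j := (j : ℕ)) (N := N) (by omega)
        have h4 : (φ i / φ j) * (φ (N - j) / φ (N - i)) ≤ (Φ / φ (N - i)) * (Φ / φ j) := by
          have h5 : φ i / φ j ≤ Φ / φ j := div_le_div_of_nonneg_right (hle i) p2.le
          have h6 : φ (N - j) / φ (N - i) ≤ Φ / φ (N - i) :=
            div_le_div_of_nonneg_right (hle _) p3.le
          calc (φ i / φ j) * (φ (N - j) / φ (N - i)) ≤ (Φ / φ j) * (Φ / φ (N - i)) :=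
                mul_le_mul h5 h6 (by positivity) (by positivity)
            _ = _ := by ring
        have h5 : K ≤ 128 / (((N : ℝ) + 1) ^ 2 * δ ^ 2) * ((Φ / φ (N - i)) * (Φ / φ j)) :=
          mul_le_mul h3 h4 (by positivity) (by positivity)
        have h6 : (Q.card : ℝ) / P.card * K ≤ 1 * K := mul_le_mul_of_nonneg_right hq1 hK0
        linarith
  linarith

end Pool.Agent.Helper65.KE
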